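import Pool.Agent.N859.QW.Stm

/-!
# Project QW (helper859): the invariant state
-/

set_option autoImplicit false

open scoped InnerProductSpace CStarAlgebra

namespace Pool.Agent.N286.QW

open Pool.Agent.N859.QW

section diag

variable {K H : Type} [NormedAddCommGroup K] [InnerProductSpace ℂ K] [CompleteSpace K]
  [NormedAddCommGroup H] [InnerProductSpace ℂ H] [CompleteSpace H]

/-- the diagonal operator -/
noncomputable def dg (S : K →L[ℂ] K) (T : H →L[ℂ] H) : WithLp 2 (K × H) →L[ℂ] WithLp 2 (K × H) :=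
  ((WithLp.prodContinuousLinearEquiv 2 ℂ K H).symm : (K × H) →L[ℂ] WithLp 2 (K × H)) ∘L
    (S.prodMap T) ∘L ((WithLp.prodContinuousLinearEquiv 2 ℂ K H) : WithLp 2 (K × H) →L[ℂ] (K × H))

lemma dg_fst (S : K →L[ℂ] K) (T : H →L[ℂ] H) (x : WithLp 2 (K × H)) :
    (dg S T x).fst = S x.fst := rfl

lemma dg_snd (S : K →L[ℂ] K) (T : H →L[ℂ] H) (x : WithLp 2 (K × H)) :
    (dg S T x).snd = T x.snd := rfl

lemma wext {x y : WithLp 2 (K × H)} (h1 : x.fst = y.fst) (h2 : x.snd = y.snd) : x = y := by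
  apply (WithLp.prodContinuousLinearEquiv 2 ℂ K H).injective
  exact Prod.ext h1 h2

lemma dg_mul (S S' : K →L[ℂ] K) (T T' : H →L[ℂ] H) : dg (S * S') (T * T') = dg S T * dg S' T' := rfl

lemma dg_one : dg (1 : K →L[ℂ] K) (1 : H →L[ℂ] H) = 1 := rfl

lemma dg_add (S S' : K →L[ℂ] K) (T T' : H →L[ℂ] H) : dg (S + S') (T + T') = dg S T + dg S' T' := rfl

lemma dg_smul (c : ℂ) (S : K →L[ℂ] K) (T : H →L[ℂ] H) : dg (c • S) (c • T) = c • dg S T := rfl

lemma dg_zero : dg (0 : K →L[ℂ] K) (0 : H →L[ℂ] H) = 0 := rfl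

lemma dg_star (S : K →L[ℂ] K) (T : H →L[ℂ] H) : dg (star S) (star T) = star (dg S T) := by
  rw [ContinuousLinearMap.star_eq_adjoint (dg S T)]
  rw [ContinuousLinearMap.eq_adjoint_iff]
  intro x y
  rw [WithLp.prod_inner_apply, WithLp.prod_inner_apply]
  show ⟪star S x.fst, y.fst⟫_ℂ + ⟪star T x.snd, y.snd⟫_ℂ = ⟪x.fst, S y.fst⟫_ℂ + ⟪x.snd, T y.snd⟫_ℂ
  rw [ContinuousLinearMap.star_eq_adjoint, ContinuousLinearMap.star_eq_adjoint,
    ContinuousLinearMap.adjoint_inner_left, ContinuousLinearMap.adjoint_inner_left]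

end diag

lemma cp_star {K : Type} [NormedAddCommGroup K] [InnerProductSpace ℂ K] [CompleteSpace K]
    (Φ : (K →L[ℂ] K) →CP (K →L[ℂ] K)) (T : K →L[ℂ] K) : Φ (star T) = star (Φ T) := map_star Φ T

lemma cp_pos {K : Type} [NormedAddCommGroup K] [InnerProductSpace ℂ K] [CompleteSpace K]
    (Φ : (K →L[ℂ] K) →CP (K →L[ℂ] K)) (T : K →L[ℂ] K) (x : K) :
    0 ≤ (⟪x, Φ (star T * T) x⟫_ℂ).re := by
  have h1 : 0 ≤ Φ (star T * T) := map_nonneg Φ (star_mul_self_nonneg T)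
  have h2 := (ContinuousLinearMap.nonneg_iff_isPositive _).1 h1
  exact h2.re_inner_nonneg_right x

/-- the direct sum of the inclusion of `B` and of `q` -/
noncomputable def pim {K H : Type} [NormedAddCommGroup K] [InnerProductSpace ℂ K] [CompleteSpace K]
    [NormedAddCommGroup H] [InnerProductSpace ℂ H] [CompleteSpace H]
    (B : StarSubalgebra ℂ (K →L[ℂ] K)) (q : B →⋆ₐ[ℂ] (H →L[ℂ] H)) :
    B →⋆ₐ[ℂ] (WithLp 2 (K × H) →L[ℂ] WithLp 2 (K × H)) where
  toFun b := dg (b : K →L[ℂ] K) (q b)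
  map_one' := by
    rw [map_one]
    rfl
  map_mul' x y := by
    rw [map_mul]
    rfl
  map_zero' := by
    rw [map_zero]
    rfl
  map_add' x y := by
    rw [map_add]
    rfl
  commutes' c := by
    rw [Algebra.algebraMap_eq_smul_one, Algebra.algebraMap_eq_smul_one, map_smul, map_one]
    rfl
  map_star' x := by
    rw [map_star, ← dg_star]
    rfl

theorem t_state (hbim : ∀ (K : Type) [NormedAddCommGroup K] [InnerProductSpace ℂ K]
    [CompleteSpace K] (Φ : (K →L[ℂ] K) →CP (K →L[ℂ] K)), Φ 1 = 1 →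
    ∀ a, Φ a = a → Φ (star a * a) = star a * a →
    ∀ T, Φ (star a * T) = star a * Φ T ∧ Φ (star T * a) = Φ (star T) * a) : S_STATE := by
  intro H _ _ _ N Γ _ u r ξ hQ hD
  obtain ⟨K₀, _, _, _, B, q, hB, hW, hq⟩ := hQ
  classical
  -- lifts of the unitaries
  have hlift : ∀ g, ∃ x : B, q x = (u g : H →L[ℂ] H) := by
    intro g
    have h1 : (u g : H →L[ℂ] H) ∈ Set.range q := by
      rw [hq]
      exact hD.mem g
    exact h1
  obtain ⟨x, hx1, hx⟩ : ∃ x : Γ → B, x 1 = 1 ∧ ∀ g, q (x g) = (u g : H →L[ℂ] H) := by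
    choose y hy using hlift
    refine ⟨fun g => if g = 1 then 1 else y g, if_pos rfl, fun g => ?_⟩
    by_cases hg : g = 1
    · simp only [if_pos hg]
      rw [hg, map_one, map_one]
      rfl
    · simp only [if_neg hg]
      exact hy g
  have hπ : Function.Injective (pim B q) := by
    intro a b hab
    apply Subtype.ext
    apply ContinuousLinearMap.ext
    intro k
    have h1 := congrArg (fun T : WithLp 2 (K₀ × H) →L[ℂ] WithLp 2 (K₀ × H) =>
      (T (WithLp.toLp 2 (k, 0))).fst) hab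
    exact h1
  obtain ⟨Φ, hΦ1, hΦc, hΦ⟩ := hW (WithLp 2 (K₀ × H)) (pim B q) hπ
  -- the operators from the commutant
  have hRc : ∀ g, dg (0 : K₀ →L[ℂ] K₀) (r g) ∈ Set.centralizer (Set.range (pim B q)) := by
    intro g
    rw [Set.mem_centralizer_iff]
    rintro _ ⟨b, rfl⟩
    show dg (b : K₀ →L[ℂ] K₀) (q b) * dg 0 (r g) = dg 0 (r g) * dg (b : K₀ →L[ℂ] K₀) (q b)
    rw [← dg_mul, ← dg_mul, mul_zero, zero_mul]
    have h1 : q b ∈ (N : Set (H →L[ℂ] H)) := by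
      rw [← hq]
      exact ⟨b, rfl⟩
    rw [hD.com g (q b) h1]
  have hRΦ : ∀ g T, dg (0 : K₀ →L[ℂ] K₀) (r g) * Φ T = Φ T * dg 0 (r g) := by
    intro g T
    exact (Set.mem_centralizer_iff.1 (hΦc T)) _ (hRc g)
  obtain ⟨ξ', hξ'⟩ : ∃ ξ' : WithLp 2 (K₀ × H), ξ' = WithLp.toLp 2 (0, ξ) := ⟨_, rfl⟩
  have hin : ∀ (v : WithLp 2 (K₀ × H)), ⟪ξ', v⟫_ℂ = ⟪ξ, v.snd⟫_ℂ := by
    intro v
    rw [WithLp.prod_inner_apply, hξ']
    show ⟪(0 : K₀), _⟫_ℂ + ⟪ξ, _⟫_ℂ = _
    rw [inner_zero_left, zero_add]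
    rfl
  have hb_ap : ∀ b : B, pim B q b ξ' = WithLp.toLp 2 (0, q b ξ) := by
    intro b
    refine wext ?_ ?_
    · show (b : K₀ →L[ℂ] K₀) ξ'.fst = 0
      rw [hξ']
      exact map_zero _
    · show q b ξ'.snd = _
      rw [hξ']
      rfl
  have hR_ap : ∀ g, dg (0 : K₀ →L[ℂ] K₀) (r g) ξ' = WithLp.toLp 2 (0, (u g : H →L[ℂ] H) ξ) := by
    intro g
    refine wext ?_ ?_
    · rfl
    · show r g ξ'.snd = (u g : H →L[ℂ] H) ξ
      rw [hξ']
      exact hD.eq1 g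
  obtain ⟨φ, hφ⟩ : ∃ φ : (WithLp 2 (K₀ × H) →L[ℂ] WithLp 2 (K₀ × H)) →ₗ[ℂ] ℂ,
      ∀ T, φ T = ⟪ξ', Φ T ξ'⟫_ℂ := by
    refine ⟨{ toFun := fun T => ⟪ξ', Φ T ξ'⟫_ℂ, map_add' := ?_, map_smul' := ?_ }, fun _ => rfl⟩
    · intro S T
      rw [map_add]
      show ⟪ξ', Φ S ξ' + Φ T ξ'⟫_ℂ = _
      rw [inner_add_right]
    · intro c T
      rw [map_smul]
      show ⟪ξ', c • Φ T ξ'⟫_ℂ = _
      rw [inner_smul_right]
      rfl
  have hφπ : ∀ b : B, φ (pim B q b) = ⟪ξ, q b ξ⟫_ℂ := by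
    intro b
    rw [hφ, hΦ, hb_ap, hin]
    rfl
  have hφ0 : ∀ z : B, q z = 0 → φ (star (pim B q z) * pim B q z) = 0 := by
    intro z hz
    rw [← map_star, ← map_mul, hφπ, map_mul, hz, mul_zero]
    exact inner_zero_right _
  have hbi : ∀ (y : B) (T : WithLp 2 (K₀ × H) →L[ℂ] WithLp 2 (K₀ × H)),
      Φ (star (pim B q y) * T * pim B q y) = star (pim B q y) * Φ T * pim B q y := by
    intro y T
    have h1 := hbim _ Φ hΦ1 (pim B q y) (hΦ y) (by rw [← map_star, ← map_mul, hΦ])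
    rw [mul_assoc, (h1 _).1, mul_assoc]
    have h2 := (h1 (star T)).2
    rw [star_star] at h2
    rw [h2]
  refine ⟨WithLp 2 (K₀ × H), inferInstance, inferInstance, inferInstance,
    fun g => pim B q (x g), φ, ?_, ?_, ?_, ?_, ?_, ?_, ?_, ?_⟩
  · show pim B q (x 1) = 1
    rw [hx1, map_one]
  · rw [hφ, hΦ1, hin]
    show ⟪ξ, ξ'.snd⟫_ℂ = 1
    rw [hξ']
    show ⟪ξ, ξ⟫_ℂ = 1
    rw [inner_self_eq_norm_sq_to_K, hD.unit]
    norm_num
  · intro T
    rw [hφ, hφ, cp_star, ContinuousLinearMap.star_eq_adjoint,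
      ContinuousLinearMap.adjoint_inner_right]
    exact (inner_conj_symm _ _).symm
  · intro T
    rw [hφ]
    exact cp_pos Φ T ξ'
  · intro g V
    rw [hφ, hφ, hbi]
    show ⟪ξ', star (pim B q (x g)) (Φ V (pim B q (x g) ξ'))⟫_ℂ = _
    rw [ContinuousLinearMap.star_eq_adjoint, ContinuousLinearMap.adjoint_inner_right, hb_ap, hx,
      ← hR_ap]
    have h1 : Φ V (dg (0 : K₀ →L[ℂ] K₀) (r g) ξ') = dg (0 : K₀ →L[ℂ] K₀) (r g) (Φ V ξ') := by
      have := congrArg (fun T : WithLp 2 (K₀ × H) →L[ℂ] WithLp 2 (K₀ × H) => T ξ') (hRΦ g V)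
      exact this.symm
    rw [h1, ← ContinuousLinearMap.adjoint_inner_left, ← ContinuousLinearMap.star_eq_adjoint,
      ← dg_star, hR_ap]
    congr 1
    refine wext ?_ ?_
    · show star (0 : K₀ →L[ℂ] K₀) 0 = _
      rw [map_zero, hξ']
      rfl
    · show star (r g) ((u g : H →L[ℂ] H) ξ) = ξ'.snd
      have h2 : star (r g) * (u g : H →L[ℂ] H) = (u g : H →L[ℂ] H) * star (r g) := by
        have h3 := hD.com g (star (u g : H →L[ℂ] H)) (star_mem (hD.mem g))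
        have h4 := congrArg star h3
        rw [star_mul, star_mul, star_star] at h4
        exact h4
      have h5 : star (r g) ((u g : H →L[ℂ] H) ξ) = (star (r g) * (u g : H →L[ℂ] H)) ξ := rfl
      rw [h5, h2]
      show (u g : H →L[ℂ] H) (star (r g) ξ) = _
      rw [hD.eq2]
      have h6 : (u g : H →L[ℂ] H) (star (u g : H →L[ℂ] H) ξ) =
        ((u g : H →L[ℂ] H) * star (u g : H →L[ℂ] H)) ξ := rfl
      have h7 : (u g : H →L[ℂ] H) * star (u g : H →L[ℂ] H) = 1 :=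
        (Unitary.mem_iff.1 (u g).2).2
      rw [h6, h7, hξ']
      rfl
  · intro g
    show φ (star (1 - star (pim B q (x g)) * pim B q (x g)) *
      (1 - star (pim B q (x g)) * pim B q (x g))) = 0
    have h1 : (1 - star (pim B q (x g)) * pim B q (x g)) = pim B q (1 - star (x g) * x g) := by
      rw [map_sub, map_one, map_mul, map_star]
    rw [h1]
    apply hφ0
    have h7 : star (u g : H →L[ℂ] H) * (u g : H →L[ℂ] H) = 1 := (Unitary.mem_iff.1 (u g).2).1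
    rw [map_sub, map_one, map_mul, map_star, hx, h7, sub_self]
  · intro g h
    show φ (star (pim B q (x (g * h)) - pim B q (x g) * pim B q (x h)) *
      (pim B q (x (g * h)) - pim B q (x g) * pim B q (x h))) = 0
    have h1 : pim B q (x (g * h)) - pim B q (x g) * pim B q (x h) =
        pim B q (x (g * h) - x g * x h) := by
      rw [map_sub, map_mul]
    rw [h1]
    apply hφ0
    rw [map_sub, map_mul, hx, hx, hx, map_mul]
    exact sub_self _
  · intro g hg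
    rw [hφπ, hx]
    exact hD.orth g hg

end Pool.Agent.N286.QW
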